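import Pool.Agent.Lib.MP_6d8312_an.KD.Final

/-!
# The dichotomy of Sidon sets and sets of analyticity

Every set of integers is a Sidon set or a set of analyticity.
-/

set_option autoImplicit false

namespace Pool.Agent.Results.MP_6d8312_an.Dichotomy

open Pool.Agent.Lib.MP_6d8312_an Pool.Agent.Lib.MP_6d8312_an.KD

theorem result (Λ : Set ℤ) : Sidon Λ ∨ AnalyticitySet Λ :=
  sidon_or_analyticitySet Λ

end Pool.Agent.Results.MP_6d8312_an.Dichotomy
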